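import Pool.Agent.H46.Lib.R_seed8.H921R2.TatePole.Main

set_option autoImplicit false

open Complex Filter Topology NumberField IsDedekindDomain

namespace Pool.Agent.H921R2.TatePole

section
variable {K : Type*} [Field K] [NumberField K]

/-- the norm of a prime ideal -/
noncomputable def nm (v : HeightOneSpectrum (𝓞 K)) : ℕ := Ideal.absNorm v.asIdeal

lemma nm_ne_zero (v : HeightOneSpectrum (𝓞 K)) : nm v ≠ 0 := by
  unfold nm
  rw [Ne, Ideal.absNorm_eq_zero_iff]
  exact v.ne_bot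

lemma two_le_nm (v : HeightOneSpectrum (𝓞 K)) : 2 ≤ nm v := by
  have h0 := nm_ne_zero v
  have h1 : nm v ≠ 1 := by
    unfold nm
    rw [Ne, Ideal.absNorm_eq_one_iff]
    exact v.isPrime.ne_top
  omega

variable (K) in
/-- number of ideals of norm `n` -/
noncomputable def aK (n : ℕ) : ℝ := (Nat.card {I : Ideal (𝓞 K) // Ideal.absNorm I = n} : ℝ)

lemma aK_nonneg (n : ℕ) : 0 ≤ aK K n := by unfold aK; positivity

variable (K) in
/-- `∑ a_n n^{-x}` -/
noncomputable def ZK (x : ℝ) : ℝ := ∑' n : ℕ, if n = 0 then 0 else aK K n * (n : ℝ) ^ (-x)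

lemma dedekindZeta_real (x : ℝ) : dedekindZeta K (x : ℂ) = ((ZK K x : ℝ) : ℂ) := by
  unfold dedekindZeta ZK LSeries
  rw [Complex.ofReal_tsum]
  refine tsum_congr fun n => ?_
  by_cases hn : n = 0
  · simp [hn]
  · rw [LSeries.term_of_ne_zero hn, if_neg hn]
    unfold aK
    rw [Complex.ofReal_mul, Complex.ofReal_cpow (by positivity), div_eq_mul_inv]
    push_cast
    rw [Complex.cpow_neg]

lemma ZK_tendsto : Tendsto (fun x : ℝ => (x - 1) * ZK K x) (𝓝[>] 1) (𝓝 (dedekindZeta_residue K)) := by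
  have h := tendsto_sub_one_mul_dedekindZeta_nhdsGT K
  have h2 : Tendsto (fun x : ℝ => ((((x - 1) * ZK K x : ℝ)) : ℂ)) (𝓝[>] 1)
      (𝓝 ((dedekindZeta_residue K : ℝ) : ℂ)) := by
    refine h.congr fun x => ?_
    rw [dedekindZeta_real]
    push_cast
    ring
  have h3 := (Complex.continuous_re.tendsto _).comp h2
  rw [Complex.ofReal_re] at h3
  exact h3.congr fun x => by rw [Function.comp_apply, Complex.ofReal_re]

lemma ZK_pos : ∀ᶠ x : ℝ in 𝓝[>] 1, 0 < ZK K x := by
  have h := ZK_tendsto (K := K)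
  have hpos := dedekindZeta_residue_pos K
  filter_upwards [h.eventually (lt_mem_nhds hpos), self_mem_nhdsWithin] with x hx hx1
  have : (0 : ℝ) < x - 1 := sub_pos.mpr hx1
  exact pos_of_mul_pos_of_pos_left' this hx
where
  pos_of_mul_pos_of_pos_left' {a b : ℝ} (ha : 0 < a) (h : 0 < a * b) : 0 < b := by
    by_contra hb
    rw [not_lt] at hb
    have := mul_nonpos_of_nonneg_of_nonpos ha.le hb
    linarith

lemma ZK_summable_near : ∀ᶠ x : ℝ in 𝓝[>] 1,
    Summable (fun n : ℕ => if n = 0 then 0 else aK K n * (n : ℝ) ^ (-x)) := by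
  filter_upwards [ZK_pos (K := K)] with x hx
  by_contra h
  have : ZK K x = 0 := tsum_eq_zero_of_not_summable h
  linarith

lemma ZK_summable {x : ℝ} (hx : 1 < x) :
    Summable (fun n : ℕ => if n = 0 then 0 else aK K n * (n : ℝ) ^ (-x)) := by
  have h1 : ∀ᶠ y : ℝ in 𝓝[>] 1, y < x :=
    (eventually_lt_nhds hx).filter_mono nhdsWithin_le_nhds
  obtain ⟨y, hy, hyx⟩ := ((ZK_summable_near (K := K)).and h1).exists
  refine Summable.of_nonneg_of_le (fun n => ?_) (fun n => ?_) hy
  · split_ifs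
    · exact le_rfl
    · exact mul_nonneg (aK_nonneg n) (by positivity)
  · split_ifs with hn
    · exact le_rfl
    · refine mul_le_mul_of_nonneg_left ?_ (aK_nonneg n)
      refine Real.rpow_le_rpow_of_exponent_le ?_ (by linarith)
      exact_mod_cast Nat.one_le_iff_ne_zero.mpr hn

/-- finite sums over ideals are bounded by the zeta value -/
lemma sum_ideals_le {x : ℝ} (hx : 1 < x) (A : Finset (Ideal (𝓞 K))) (hA : ∀ I ∈ A, I ≠ ⊥) :
    ∑ I ∈ A, ((Ideal.absNorm I : ℕ) : ℝ) ^ (-x) ≤ ZK K x := by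
  classical
  have h1 : ∑ I ∈ A, ((Ideal.absNorm I : ℕ) : ℝ) ^ (-x) =
      ∑ n ∈ A.image (fun I => Ideal.absNorm I),
        ({I ∈ A | Ideal.absNorm I = n}.card : ℝ) * (n : ℝ) ^ (-x) := by
    rw [Finset.sum_comp (fun n : ℕ => (n : ℝ) ^ (-x)) (fun I : Ideal (𝓞 K) => Ideal.absNorm I)]
    simp
  rw [h1]
  have h2 : ∑ n ∈ A.image (fun I => Ideal.absNorm I),
        ({I ∈ A | Ideal.absNorm I = n}.card : ℝ) * (n : ℝ) ^ (-x) ≤
      ∑ n ∈ A.image (fun I => Ideal.absNorm I),
        (if n = 0 then 0 else aK K n * (n : ℝ) ^ (-x)) := by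
    refine Finset.sum_le_sum fun n hn => ?_
    obtain ⟨I, hI, rfl⟩ := Finset.mem_image.mp hn
    have hne : Ideal.absNorm I ≠ 0 := by
      rw [Ne, Ideal.absNorm_eq_zero_iff]; exact hA I hI
    rw [if_neg hne]
    refine mul_le_mul_of_nonneg_right ?_ (by positivity)
    unfold aK
    have hfin : Finite {J : Ideal (𝓞 K) // Ideal.absNorm J = Ideal.absNorm I} :=
      Set.Finite.to_subtype (Ideal.finite_setOfPred_absNorm_eq (S := 𝓞 K) (Ideal.absNorm I))
    have := Fintype.ofFinite {J : Ideal (𝓞 K) // Ideal.absNorm J = Ideal.absNorm I}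
    rw [Nat.card_eq_fintype_card]
    norm_cast
    rw [← Finset.card_univ]
    refine Finset.card_le_card_of_injOn (f := fun J => if h : Ideal.absNorm J = Ideal.absNorm I
      then ⟨J, h⟩ else ⟨I, rfl⟩) (fun J _ => Finset.mem_coe.mpr (Finset.mem_univ _)) ?_
    intro J hJ J' hJ' h
    have e1 : Ideal.absNorm J = Ideal.absNorm I := (Finset.mem_filter.mp hJ).2
    have e2 : Ideal.absNorm J' = Ideal.absNorm I := (Finset.mem_filter.mp hJ').2
    simp only [e1, e2, dite_true] at h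
    exact congrArg Subtype.val h
  refine h2.trans ?_
  unfold ZK
  refine Summable.sum_le_tsum _ (fun n _ => ?_) (ZK_summable hx)
  split_ifs
  · exact le_rfl
  · exact mul_nonneg (aK_nonneg n) (by positivity)

lemma dvd_prod_iff (v : HeightOneSpectrum (𝓞 K)) (t : Finset (HeightOneSpectrum (𝓞 K))) :
    v.asIdeal ∣ ∏ u ∈ t, u.asIdeal ↔ v ∈ t := by
  constructor
  · intro h
    obtain ⟨u, hu, hd⟩ := (Prime.dvd_finsetProd_iff v.prime _).mp h
    have : v = u := by
      have h2 : Associated v.asIdeal u.asIdeal := v.prime.associated_of_dvd u.prime hd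
      exact HeightOneSpectrum.ext (associated_iff_eq.mp h2)
    rwa [this]
  · intro h
    exact Finset.dvd_prod_of_mem (fun u : HeightOneSpectrum (𝓞 K) => u.asIdeal) h

/-- upper bound for finite products over primes -/
lemma prod_one_add_le {x : ℝ} (hx : 1 < x) (F : Finset (HeightOneSpectrum (𝓞 K))) :
    ∏ v ∈ F, (1 + (nm v : ℝ) ^ (-x)) ≤ ZK K x := by
  classical
  rw [Finset.prod_one_add]
  have h1 : ∀ t : Finset (HeightOneSpectrum (𝓞 K)), ∏ v ∈ t, (nm v : ℝ) ^ (-x) =
      ((Ideal.absNorm (∏ v ∈ t, v.asIdeal) : ℕ) : ℝ) ^ (-x) := by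
    intro t
    rw [map_prod]
    push_cast
    rw [Real.finsetProd_rpow _ _ (fun v _ => by positivity)]
    rfl
  have h2 : ∑ t ∈ F.powerset, ∏ v ∈ t, (nm v : ℝ) ^ (-x) =
      ∑ I ∈ F.powerset.image (fun t => ∏ v ∈ t, v.asIdeal),
        ((Ideal.absNorm I : ℕ) : ℝ) ^ (-x) := by
    rw [Finset.sum_image]
    · exact Finset.sum_congr rfl fun t _ => h1 t
    · intro s _ t _ hst
      ext v
      rw [← dvd_prod_iff v s, ← dvd_prod_iff v t]
      simp only at hst
      rw [hst]
  rw [h2]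
  refine sum_ideals_le hx _ fun I hI => ?_
  obtain ⟨t, _, rfl⟩ := Finset.mem_image.mp hI
  rw [← Ideal.zero_eq_bot]
  exact Finset.prod_ne_zero_iff.mpr fun v _ => by
    rw [Ideal.zero_eq_bot]; exact v.ne_bot

lemma sum_le_prod_one_add' {ι : Type*} (F : Finset ι) (f : ι → ℝ) (hf : ∀ i, 0 ≤ f i) :
    1 + ∑ i ∈ F, f i ≤ ∏ i ∈ F, (1 + f i) := by
  classical
  induction F using Finset.induction_on with
  | empty => simp
  | insert a F ha ih =>
    rw [Finset.sum_insert ha, Finset.prod_insert ha]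
    have h1 : 0 ≤ ∑ i ∈ F, f i := Finset.sum_nonneg fun i _ => hf i
    have h2 := hf a
    nlinarith

lemma nm_summable {x : ℝ} (hx : 1 < x) :
    Summable (fun v : HeightOneSpectrum (𝓞 K) => (nm v : ℝ) ^ (-x)) := by
  refine summable_of_sum_le (fun v => by positivity) (c := ZK K x) fun F => ?_
  refine le_trans ?_ (prod_one_add_le hx F)
  have := sum_le_prod_one_add' F (fun v : HeightOneSpectrum (𝓞 K) => (nm v : ℝ) ^ (-x))
    (fun v => by positivity)
  linarith

lemma nm_rpow_le_half (v : HeightOneSpectrum (𝓞 K)) {x : ℝ} (hx : 1 ≤ x) :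
    (nm v : ℝ) ^ (-x) ≤ 1 / 2 := by
  have h2 : (2 : ℝ) ≤ (nm v : ℝ) := by exact_mod_cast two_le_nm v
  calc (nm v : ℝ) ^ (-x) ≤ (nm v : ℝ) ^ (-1 : ℝ) :=
        Real.rpow_le_rpow_of_exponent_le (by linarith) (by linarith)
    _ = ((nm v : ℝ))⁻¹ := by rw [Real.rpow_neg_one]
    _ ≤ 1 / 2 := by
        rw [one_div]
        exact inv_anti₀ (by norm_num) h2

variable (K) in
/-- `∑_v N(v)^{-2}` -/
noncomputable def CK : ℝ := ∑' v : HeightOneSpectrum (𝓞 K), (nm v : ℝ) ^ (-(2 : ℝ))

lemma CK_nonneg : 0 ≤ CK K := tsum_nonneg fun v => by positivity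

lemma tsum_nm_two_mul_le {x : ℝ} (hx : 1 < x) :
    ∑' v : HeightOneSpectrum (𝓞 K), (nm v : ℝ) ^ (-(2 * x)) ≤ CK K := by
  refine Summable.tsum_le_tsum (fun v => ?_) (nm_summable (by linarith))
    (nm_summable (by norm_num))
  have h2 : (2 : ℝ) ≤ (nm v : ℝ) := by exact_mod_cast two_le_nm v
  exact Real.rpow_le_rpow_of_exponent_le (by linarith) (by linarith)

lemma rpow_sq' (v : HeightOneSpectrum (𝓞 K)) (x : ℝ) :
    ((nm v : ℝ) ^ (-x)) ^ 2 = (nm v : ℝ) ^ (-(2 * x)) := by
  rw [← Real.rpow_natCast, ← Real.rpow_mul (by positivity)]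
  norm_num
  ring_nf

/-- the real form of the estimate for the logarithm -/
lemma log_one_add_ge {u : ℝ} (h0 : 0 ≤ u) (h1 : u ≤ 1 / 2) : u - u ^ 2 ≤ Real.log (1 + u) := by
  have h := log_norm_one_sub (z := ((-u : ℝ) : ℂ)) (by
    rw [Complex.norm_real, Real.norm_eq_abs, abs_neg, abs_of_nonneg h0]; exact h1)
  rw [Complex.norm_real, Real.norm_eq_abs, abs_neg, abs_of_nonneg h0, Complex.ofReal_re] at h
  have e : ‖(1 : ℂ) - ((-u : ℝ) : ℂ)‖ = 1 + u := by
    have : (1 : ℂ) - ((-u : ℝ) : ℂ) = ((1 + u : ℝ) : ℂ) := by push_cast; ring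
    rw [this, Complex.norm_real, Real.norm_eq_abs, abs_of_nonneg (by linarith)]
  rw [e] at h
  have := (abs_le.mp h).2
  linarith

lemma neg_log_one_sub_le {u : ℝ} (h0 : 0 ≤ u) (h1 : u ≤ 1 / 2) :
    -Real.log (1 - u) ≤ u + u ^ 2 := by
  have h := log_norm_one_sub (z := (u : ℂ)) (by
    rw [Complex.norm_real, Real.norm_eq_abs, abs_of_nonneg h0]; exact h1)
  rw [Complex.norm_real, Real.norm_eq_abs, abs_of_nonneg h0, Complex.ofReal_re] at h
  have e : ‖(1 : ℂ) - (u : ℂ)‖ = 1 - u := by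
    have : (1 : ℂ) - (u : ℂ) = ((1 - u : ℝ) : ℂ) := by push_cast; ring
    rw [this, Complex.norm_real, Real.norm_eq_abs, abs_of_nonneg (by linarith)]
  rw [e] at h
  have := (abs_le.mp h).2
  linarith

/-- upper bound for the prime sum -/
lemma prime_sum_le {x : ℝ} (hx : 1 < x) :
    ∑' v : HeightOneSpectrum (𝓞 K), (nm v : ℝ) ^ (-x) ≤ Real.log (ZK K x) + CK K := by
  have hs1 := nm_summable (K := K) hx
  have hs2 := nm_summable (K := K) (x := 2 * x) (by linarith)
  have h1 : ∑' v : HeightOneSpectrum (𝓞 K), ((nm v : ℝ) ^ (-x) - (nm v : ℝ) ^ (-(2 * x))) ≤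
      Real.log (ZK K x) := by
    refine (hs1.sub hs2).tsum_le_of_sum_le fun F => ?_
    · have h2 : ∀ v ∈ F, (nm v : ℝ) ^ (-x) - (nm v : ℝ) ^ (-(2 * x)) ≤
          Real.log (1 + (nm v : ℝ) ^ (-x)) := by
        intro v _
        rw [← rpow_sq']
        exact log_one_add_ge (by positivity) (nm_rpow_le_half v hx.le)
      refine (Finset.sum_le_sum h2).trans ?_
      rw [← Real.log_prod (fun v _ => by positivity)]
      exact Real.log_le_log (Finset.prod_pos fun v _ => by positivity) (prod_one_add_le hx F)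
  rw [Summable.tsum_sub hs1 hs2] at h1
  have h3 := tsum_nm_two_mul_le (K := K) hx
  linarith

/-- sums over ideals whose prime factors lie in `F` -/
lemma sum_smooth_le {x : ℝ} (hx : 1 < x) (F : Finset (HeightOneSpectrum (𝓞 K))) :
    ∀ A : Finset (Ideal (𝓞 K)), (∀ I ∈ A, I ≠ ⊥ ∧ ∀ v : HeightOneSpectrum (𝓞 K),
      v.asIdeal ∣ I → v ∈ F) →
    ∑ I ∈ A, ((Ideal.absNorm I : ℕ) : ℝ) ^ (-x) ≤ ∏ v ∈ F, (1 - (nm v : ℝ) ^ (-x))⁻¹ := by
  classical
  induction F using Finset.induction_on with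
  | empty =>
    intro A hA
    rw [Finset.prod_empty]
    have hsub : A ⊆ {⊤} := by
      intro I hI
      rw [Finset.mem_singleton]
      by_contra hne
      obtain ⟨M, hM, hIM⟩ := Ideal.exists_le_maximal I hne
      have hMbot : M ≠ ⊥ := by
        rintro rfl
        exact (hA I hI).1 (le_bot_iff.mp hIM)
      have := (hA I hI).2 ⟨M, hM.isPrime, hMbot⟩ (Ideal.dvd_iff_le.mpr hIM)
      simp at this
    calc ∑ I ∈ A, ((Ideal.absNorm I : ℕ) : ℝ) ^ (-x) ≤
          ∑ I ∈ ({⊤} : Finset (Ideal (𝓞 K))), ((Ideal.absNorm I : ℕ) : ℝ) ^ (-x) :=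
          Finset.sum_le_sum_of_subset_of_nonneg hsub fun I _ _ => by positivity
      _ = 1 := by simp
      _ ≤ 1 := le_rfl
  | insert q F hq ih =>
    intro A hA
    -- decompose `I = q^k I'`
    have hdec : ∀ I ∈ A, ∃ k : ℕ, ∃ I' : Ideal (𝓞 K), I = q.asIdeal ^ k * I' ∧
        ¬ q.asIdeal ∣ I' := by
      intro I hI
      have hfin : FiniteMultiplicity q.asIdeal I :=
        FiniteMultiplicity.of_prime_left q.prime (by
          rw [Ideal.zero_eq_bot]; exact (hA I hI).1)
      obtain ⟨c, hc, hc2⟩ := hfin.exists_eq_pow_mul_and_not_dvd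
      exact ⟨_, c, hc, hc2⟩
    choose! k I' hI1 hI2 using hdec
    set B : Finset (Ideal (𝓞 K)) := A.image I' with hB
    set M : ℕ := A.sup k + 1 with hM
    have hBprop : ∀ J ∈ B, J ≠ ⊥ ∧ ∀ v : HeightOneSpectrum (𝓞 K), v.asIdeal ∣ J → v ∈ F := by
      intro J hJ
      obtain ⟨I, hI, rfl⟩ := Finset.mem_image.mp hJ
      refine ⟨?_, fun v hv => ?_⟩
      · intro h0
        apply (hA I hI).1
        rw [hI1 I hI, h0]
        simp
      · have h1 : v.asIdeal ∣ I := by
          have := Dvd.dvd.mul_left hv (q.asIdeal ^ k I)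
          rwa [← hI1 I hI] at this
        have h2 := (hA I hI).2 v h1
        rcases Finset.mem_insert.mp h2 with h3 | h3
        · subst h3
          exact absurd hv (hI2 I hI)
        · exact h3
    have ihB := ih B hBprop
    -- inject into the product set
    have hinj : Set.InjOn (fun I => (k I, I' I)) (A : Set (Ideal (𝓞 K))) := by
      intro I hI J hJ h
      simp only [Prod.mk.injEq] at h
      rw [hI1 I hI, hI1 J hJ, h.1, h.2]
    have hmaps : ∀ I ∈ A, (k I, I' I) ∈ Finset.range M ×ˢ B := by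
      intro I hI
      rw [Finset.mem_product]
      refine ⟨?_, Finset.mem_image_of_mem _ hI⟩
      rw [Finset.mem_range, hM]
      exact Nat.lt_succ_of_le (Finset.le_sup hI)
    have hval : ∀ I ∈ A, ((Ideal.absNorm I : ℕ) : ℝ) ^ (-x) =
        ((nm q : ℝ) ^ (-x)) ^ (k I) * ((Ideal.absNorm (I' I) : ℕ) : ℝ) ^ (-x) := by
      intro I hI
      conv_lhs => rw [hI1 I hI]
      rw [map_mul, map_pow]
      push_cast
      rw [Real.mul_rpow (by positivity) (by positivity)]
      congr 1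
      change (((nm q : ℕ) : ℝ) ^ k I) ^ (-x) = _
      rw [← Real.rpow_natCast, ← Real.rpow_mul (by positivity), ← Real.rpow_natCast,
        ← Real.rpow_mul (by positivity)]
      congr 1
      ring
    have hu0 : 0 ≤ (nm q : ℝ) ^ (-x) := by positivity
    have hu1 : (nm q : ℝ) ^ (-x) < 1 := lt_of_le_of_lt (nm_rpow_le_half q hx.le) (by norm_num)
    calc ∑ I ∈ A, ((Ideal.absNorm I : ℕ) : ℝ) ^ (-x)
        = ∑ I ∈ A, (fun z : ℕ × Ideal (𝓞 K) => ((nm q : ℝ) ^ (-x)) ^ z.1 *
            ((Ideal.absNorm z.2 : ℕ) : ℝ) ^ (-x)) (k I, I' I) :=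
          Finset.sum_congr rfl fun I hI => hval I hI
      _ = ∑ z ∈ A.image (fun I => (k I, I' I)), ((nm q : ℝ) ^ (-x)) ^ z.1 *
            ((Ideal.absNorm z.2 : ℕ) : ℝ) ^ (-x) := by
          rw [Finset.sum_image hinj]
      _ ≤ ∑ z ∈ Finset.range M ×ˢ B, ((nm q : ℝ) ^ (-x)) ^ z.1 *
            ((Ideal.absNorm z.2 : ℕ) : ℝ) ^ (-x) := by
          refine Finset.sum_le_sum_of_subset_of_nonneg ?_ fun z _ _ => by positivity
          intro z hz
          obtain ⟨I, hI, rfl⟩ := Finset.mem_image.mp hz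
          exact hmaps I hI
      _ = (∑ j ∈ Finset.range M, ((nm q : ℝ) ^ (-x)) ^ j) *
            ∑ J ∈ B, ((Ideal.absNorm J : ℕ) : ℝ) ^ (-x) := by
          rw [Finset.sum_product, Finset.sum_mul_sum]
      _ ≤ (1 - (nm q : ℝ) ^ (-x))⁻¹ * ∏ v ∈ F, (1 - (nm v : ℝ) ^ (-x))⁻¹ := by
          refine mul_le_mul ?_ ihB (Finset.sum_nonneg fun J _ => by positivity)
            (inv_nonneg.mpr (by linarith))
          rw [← tsum_geometric_of_lt_one hu0 hu1]
          exact Summable.sum_le_tsum _ (fun j _ => by positivity)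
            (summable_geometric_of_lt_one hu0 hu1)
      _ = ∏ v ∈ insert q F, (1 - (nm v : ℝ) ^ (-x))⁻¹ := by
          rw [Finset.prod_insert hq]

/-- lower bound for the prime sum -/
lemma le_prime_sum {x : ℝ} (hx : 1 < x) :
    Real.log (ZK K x) ≤ ∑' v : HeightOneSpectrum (𝓞 K), (nm v : ℝ) ^ (-x) + CK K := by
  classical
  have hs1 := nm_summable (K := K) hx
  have hs2 := nm_summable (K := K) (x := 2 * x) (by linarith)
  have h3 := tsum_nm_two_mul_le (K := K) hx
  -- bound for finite products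
  have hprod : ∀ F : Finset (HeightOneSpectrum (𝓞 K)), ∏ v ∈ F, (1 - (nm v : ℝ) ^ (-x))⁻¹ ≤
      Real.exp (∑' v : HeightOneSpectrum (𝓞 K), (nm v : ℝ) ^ (-x) + CK K) := by
    intro F
    have h1 : ∀ v ∈ F, (1 - (nm v : ℝ) ^ (-x))⁻¹ ≤
        Real.exp ((nm v : ℝ) ^ (-x) + (nm v : ℝ) ^ (-(2 * x))) := by
      intro v _
      have hu := nm_rpow_le_half v hx.le
      have hpos : 0 < 1 - (nm v : ℝ) ^ (-x) := by linarith
      rw [← Real.log_le_iff_le_exp (inv_pos.mpr hpos), Real.log_inv, ← rpow_sq']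
      exact neg_log_one_sub_le (by positivity) hu
    calc ∏ v ∈ F, (1 - (nm v : ℝ) ^ (-x))⁻¹ ≤
          ∏ v ∈ F, Real.exp ((nm v : ℝ) ^ (-x) + (nm v : ℝ) ^ (-(2 * x))) :=
          Finset.prod_le_prod (fun v _ => inv_nonneg.mpr (by
            have := nm_rpow_le_half v hx.le; linarith)) h1
      _ = Real.exp (∑ v ∈ F, ((nm v : ℝ) ^ (-x) + (nm v : ℝ) ^ (-(2 * x)))) := by
          rw [Real.exp_sum]
      _ ≤ _ := by
          rw [Real.exp_le_exp]
          refine (Summable.sum_le_tsum F (fun v _ => by positivity) (hs1.add hs2)).trans ?_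
          rw [Summable.tsum_add hs1 hs2]
          linarith
  have hZ : ZK K x ≤ Real.exp (∑' v : HeightOneSpectrum (𝓞 K), (nm v : ℝ) ^ (-x) + CK K) := by
    unfold ZK
    refine Real.tsum_le_of_sum_range_le (fun n => ?_) fun X => ?_
    · split_ifs
      · exact le_rfl
      · exact mul_nonneg (aK_nonneg n) (by positivity)
    · -- the set of nonzero ideals of norm `< X`
      set A : Finset (Ideal (𝓞 K)) := ((Ideal.finite_setOfPred_absNorm_le (S := 𝓞 K) X).subset
        (t := {I : Ideal (𝓞 K) | Ideal.absNorm I < X ∧ I ≠ ⊥}) (by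
          rintro I ⟨h, _⟩; exact h.le)).toFinset with hA
      have hAmem : ∀ I, I ∈ A ↔ Ideal.absNorm I < X ∧ I ≠ ⊥ := by
        intro I; rw [hA]; simp
      have hsum : ∑ n ∈ Finset.range X, (if n = 0 then 0 else aK K n * (n : ℝ) ^ (-x)) ≤
          ∑ I ∈ A, ((Ideal.absNorm I : ℕ) : ℝ) ^ (-x) := by
        have e1 : ∑ I ∈ A, ((Ideal.absNorm I : ℕ) : ℝ) ^ (-x) =
            ∑ n ∈ Finset.range X, ∑ I ∈ A with Ideal.absNorm I = n,
              ((Ideal.absNorm I : ℕ) : ℝ) ^ (-x) := by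
          rw [Finset.sum_fiberwise_of_maps_to]
          intro I hI
          exact Finset.mem_range.mpr ((hAmem I).mp hI).1
        rw [e1]
        refine Finset.sum_le_sum fun n hn => ?_
        split_ifs with hn0
        · exact Finset.sum_nonneg fun I _ => by positivity
        · have e2 : ∑ I ∈ A with Ideal.absNorm I = n, ((Ideal.absNorm I : ℕ) : ℝ) ^ (-x) =
              ({I ∈ A | Ideal.absNorm I = n}.card : ℝ) * (n : ℝ) ^ (-x) := by
            rw [Finset.sum_congr rfl (g := fun _ => (n : ℝ) ^ (-x)) (fun I hI => by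
              rw [(Finset.mem_filter.mp hI).2])]
            simp
          rw [e2]
          refine mul_le_mul_of_nonneg_right ?_ (by positivity)
          unfold aK
          have hfin : Finite {J : Ideal (𝓞 K) // Ideal.absNorm J = n} :=
            Set.Finite.to_subtype (Ideal.finite_setOfPred_absNorm_eq (S := 𝓞 K) n)
          have := Fintype.ofFinite {J : Ideal (𝓞 K) // Ideal.absNorm J = n}
          rw [Nat.card_eq_fintype_card]
          norm_cast
          rw [← Finset.card_univ]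
          refine Finset.card_le_card_of_injOn (f := fun J => J.1) (fun J _ => ?_)
            (fun J _ J' _ h => Subtype.ext h)
          simp only [Finset.coe_filter, Set.mem_ofPred_eq]
          refine ⟨(hAmem _).mpr ⟨by rw [J.2]; exact Finset.mem_range.mp hn, ?_⟩, J.2⟩
          intro h0
          apply hn0
          rw [← J.2, h0, Ideal.absNorm_bot]
      refine hsum.trans ?_
      -- the primes dividing some ideal of `A`
      have hF : ∃ F : Finset (HeightOneSpectrum (𝓞 K)), ∀ I ∈ A, ∀ v : HeightOneSpectrum (𝓞 K),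
          v.asIdeal ∣ I → v ∈ F := by
        have hfin : (⋃ I ∈ A, {v : HeightOneSpectrum (𝓞 K) | v.asIdeal ∣ I}).Finite := by
          refine Set.Finite.biUnion A.finite_toSet fun I hI => ?_
          refine Ideal.finite_factors ?_
          rw [Ideal.zero_eq_bot]
          exact ((hAmem I).mp hI).2
        refine ⟨hfin.toFinset, fun I hI v hv => ?_⟩
        rw [Set.Finite.mem_toFinset]
        exact Set.mem_biUnion (x := I) hI hv
      obtain ⟨F, hF⟩ := hF
      refine (sum_smooth_le hx F A fun I hI => ⟨((hAmem I).mp hI).2, hF I hI⟩).trans (hprod F)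
  have hpos : 0 < ZK K x := by
    have h := prod_one_add_le (K := K) hx ∅
    rw [Finset.prod_empty] at h
    linarith
  exact (Real.log_le_iff_le_exp hpos).mpr hZ

/-- `∑_v N(v)^{-x} = log (1/(x-1)) + O(1)`. -/
lemma prime_sum_bdd : Bdd (fun x => ∑' v : HeightOneSpectrum (𝓞 K), (nm v : ℝ) ^ (-x) - Lam x) := by
  have h1 : Bdd (fun x : ℝ => Real.log ((x - 1) * ZK K x)) :=
    Bdd.of_tendsto ((ZK_tendsto (K := K)).log (dedekindZeta_residue_ne_zero K))
  have h2 : Bdd (fun x : ℝ => ∑' v : HeightOneSpectrum (𝓞 K), (nm v : ℝ) ^ (-x) -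
      Real.log (ZK K x)) := by
    refine ⟨CK K, ?_⟩
    filter_upwards [self_mem_nhdsWithin] with x hx
    rw [abs_le]
    have a := prime_sum_le (K := K) hx
    have b := le_prime_sum (K := K) hx
    constructor <;> linarith
  refine (h2.add h1).congr fun x hx => ?_
  have hpos : 0 < ZK K x := by
    have h := prod_one_add_le (K := K) hx ∅
    rw [Finset.prod_empty] at h
    linarith
  have hx1 : 0 < x - 1 := by linarith
  rw [Real.log_mul hx1.ne' hpos.ne']
  unfold Lam
  rw [one_div, Real.log_inv]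
  ring

end

end Pool.Agent.H921R2.TatePole
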